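import Pool.Agent.Q77.Esc.Star

open Complex Filter Topology Set Metric MeasureTheory

namespace Q77.Esc

/-- annulus between consecutive radii -/
def ann (k : ℕ) : Set ℂ := {z | rad (k + 1) ≤ ‖z‖ ∧ ‖z‖ < rad (k + 2)}

theorem ann_meas (k : ℕ) : MeasurableSet (ann k) :=
  (measurableSet_le measurable_const measurable_norm).inter
    (measurableSet_lt measurable_norm measurable_const)

theorem ann_disj {k l : ℕ} (h : k ≠ l) : Disjoint (ann k) (ann l) := by
  rw [Set.disjoint_left]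
  rintro z ⟨h1, h2⟩ ⟨h3, h4⟩
  rcases lt_or_gt_of_ne h with h | h
  · have : rad (k + 2) ≤ rad (l + 1) := rad_strictMono.monotone (by omega)
    linarith
  · have : rad (l + 2) ≤ rad (k + 1) := rad_strictMono.monotone (by omega)
    linarith

/-- extraction of a crossing of an annulus -/
theorem crossing {γ : ℝ → ℂ} (hγ : ContinuousOn γ (Icc 0 1)) (h0 : γ 0 = 0) (h1 : ‖γ 1‖ = 1)
    {a b : ℝ} (ha : 0 < a) (hab : a < b) (hb : b ≤ 1) :
    ∃ σ τ : ℝ, 0 ≤ σ ∧ σ < τ ∧ τ ≤ 1 ∧ ‖γ σ‖ = a ∧ ‖γ τ‖ = b ∧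
      ∀ t, σ ≤ t → t < τ → a ≤ ‖γ t‖ ∧ ‖γ t‖ < b := by
  have hn : ContinuousOn (fun t => ‖γ t‖) (Icc 0 1) := hγ.norm
  -- first time at radius `b`
  have hT : IsCompact {t ∈ Icc (0 : ℝ) 1 | b ≤ ‖γ t‖} := by
    have := hn.preimage_isClosed_of_isClosed isClosed_Icc (isClosed_Ici (a := b))
    exact isCompact_Icc.of_isClosed_subset this (fun x hx => hx.1)
  obtain ⟨τ, ⟨hτ1, hτ2⟩, hτmin⟩ := hT.exists_isLeast ⟨1, ⟨by norm_num, by norm_num⟩, by
    rw [h1]; exact hb⟩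
  have hlt : ∀ t, 0 ≤ t → t < τ → ‖γ t‖ < b := by
    intro t ht0 ht
    by_contra hcon
    push Not at hcon
    have := hτmin ⟨⟨ht0, (ht.le).trans hτ1.2⟩, hcon⟩
    linarith
  have hτ0 : 0 < τ := by
    rcases hτ1.1.lt_or_eq with h | h
    · exact h
    · rw [← h, h0, norm_zero] at hτ2; linarith
  have hsub : Icc 0 τ ⊆ Icc (0 : ℝ) 1 := Icc_subset_Icc_right hτ1.2
  have hτb : ‖γ τ‖ = b := by
    refine le_antisymm ?_ hτ2
    by_contra hcon
    push Not at hcon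
    have hivt := intermediate_value_Ioo hτ0.le (hn.mono hsub)
    simp only [h0, norm_zero] at hivt
    obtain ⟨t, ht, hteq⟩ := hivt (show b ∈ Ioo 0 ‖γ τ‖ from ⟨by linarith, hcon⟩)
    have := hlt t ht.1.le ht.2
    simp only at hteq
    linarith
  -- last time at radius `a`
  have hT' : IsCompact {t ∈ Icc (0 : ℝ) τ | ‖γ t‖ ≤ a} := by
    have := (hn.mono hsub).preimage_isClosed_of_isClosed isClosed_Icc (isClosed_Iic (a := a))
    exact isCompact_Icc.of_isClosed_subset this (fun x hx => hx.1)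
  obtain ⟨σ, ⟨hσ1, hσ2⟩, hσmax⟩ := hT'.exists_isGreatest ⟨0, ⟨le_rfl, hτ0.le⟩, by
    rw [h0, norm_zero]; exact ha.le⟩
  have hσlt : σ < τ := by
    rcases hσ1.2.lt_or_eq with h | h
    · exact h
    · rw [h, hτb] at hσ2; linarith
  have hgt : ∀ t, σ < t → t ≤ τ → a < ‖γ t‖ := by
    intro t ht ht'
    by_contra hcon
    push Not at hcon
    have := hσmax ⟨⟨hσ1.1.trans ht.le, ht'⟩, hcon⟩
    linarith
  have hσa : ‖γ σ‖ = a := by
    refine le_antisymm hσ2 ?_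
    by_contra hcon
    push Not at hcon
    have hivt := intermediate_value_Ioo hσlt.le
      (hn.mono (Icc_subset_Icc hσ1.1 hτ1.2))
    simp only [hτb] at hivt
    obtain ⟨t, ht, hteq⟩ := hivt (show a ∈ Ioo ‖γ σ‖ b from ⟨hcon, hab⟩)
    have := hgt t ht.1 ht.2.le
    simp only at hteq
    linarith
  refine ⟨σ, τ, hσ1.1, hσlt, hτ1.2, hσa, hτb, fun t ht1 ht2 => ⟨?_, hlt t (hσ1.1.trans ht1) ht2⟩⟩
  rcases ht1.lt_or_eq with h | h
  · exact (hgt t h ht2.le).le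
  · rw [← h, hσa]

/-- the part of the path in the annulus has length at least one -/
theorem ann_length {γ : ℝ → ℂ} (hγ : ContinuousOn γ (Icc 0 1)) (h0 : γ 0 = 0) (h1 : ‖γ 1‖ = 1)
    {k : ℕ} (ha : ∀ t ∈ Icc (0 : ℝ) 1, γ t ∉ arc k) (hb : ∀ t ∈ Icc (0 : ℝ) 1, γ t ∉ arc (k + 1)) :
    1 ≤ Measure.hausdorffMeasure 1 (γ '' Icc 0 1 ∩ ann k) := by
  have hr1 := rad_ge_half k
  have hr2 := rad_ge_half (k + 1)
  obtain ⟨σ, τ, hσ0, hστ, hτ1, hσ, hτ, hin⟩ := crossing hγ h0 h1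
    (a := rad (k + 1)) (b := rad (k + 2)) (by linarith)
    (rad_lt_succ (k + 1)) (rad_lt_one _).le
  set u : ℂ → ℝ := fun z => (-1) ^ k * z.re with hu
  have habs : |(-1 : ℝ) ^ k| = 1 := by rw [abs_pow]; simp
  have hlip : LipschitzWith 1 u := by
    apply LipschitzWith.of_dist_le_mul
    intro x y
    rw [NNReal.coe_one, one_mul, Real.dist_eq, dist_eq_norm, hu]
    simp only
    rw [← mul_sub, abs_mul, habs, one_mul, ← sub_re]
    exact abs_re_le_norm _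
  have hσm : σ ∈ Icc (0 : ℝ) 1 := ⟨hσ0, hστ.le.trans hτ1⟩
  have hτm : τ ∈ Icc (0 : ℝ) 1 := ⟨hσ0.trans hστ.le, hτ1⟩
  have h1' : 1 / 2 < u (γ σ) := by
    have := ha σ hσm
    rw [arc, mem_ofPred_eq, not_and, not_le] at this
    have := this hσ
    rw [hu]; simp only; linarith
  have h2' : u (γ τ) < -(1 / 2) := by
    have := hb τ hτm
    rw [arc, mem_ofPred_eq, not_and, not_le] at this
    have := this hτ
    rw [pow_succ] at this
    rw [hu]; simp only; linarith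
  have hcont : ContinuousOn (fun t => u (γ t)) (Icc σ τ) :=
    hlip.continuous.comp_continuousOn (hγ.mono (Icc_subset_Icc hσ0 hτ1))
  have hsub : Ioo (-(1 / 2) : ℝ) (1 / 2) ⊆ u '' (γ '' Icc 0 1 ∩ ann k) := by
    intro y hy
    have hivt := intermediate_value_Icc' hστ.le hcont
    obtain ⟨t, ht, hty⟩ := hivt (show y ∈ Icc (u (γ τ)) (u (γ σ)) from
      ⟨h2'.le.trans hy.1.le, hy.2.le.trans h1'.le⟩)
    have htτ : t < τ := by
      rcases ht.2.lt_or_eq with h | h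
      · exact h
      · rw [h] at hty
        simp only at hty
        linarith [hy.1]
    refine ⟨γ t, ⟨⟨t, ⟨hσ0.trans ht.1, ht.2.trans hτ1⟩, rfl⟩, hin t ht.1 htτ⟩, hty⟩
  have hle := hlip.hausdorffMeasure_image_le (d := 1) (by norm_num) (γ '' Icc 0 1 ∩ ann k)
  have hvol : (1 : ENNReal) = Measure.hausdorffMeasure 1 (Ioo (-(1 / 2) : ℝ) (1 / 2)) := by
    rw [hausdorffMeasure_real, Real.volume_Ioo]
    norm_num
  calc (1 : ENNReal) = Measure.hausdorffMeasure 1 (Ioo (-(1 / 2) : ℝ) (1 / 2)) := hvol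
    _ ≤ Measure.hausdorffMeasure 1 (u '' (γ '' Icc 0 1 ∩ ann k)) := measure_mono hsub
    _ ≤ _ := by simpa using hle

theorem length_ge {γ : ℝ → ℂ} (hγ : ContinuousOn γ (Icc 0 1)) (h0 : γ 0 = 0) (h1 : ‖γ 1‖ = 1)
    {K : ℕ} (ha : ∀ k ≤ K, ∀ t ∈ Icc (0 : ℝ) 1, γ t ∉ arc k) :
    (K : ENNReal) ≤ Measure.hausdorffMeasure 1 (γ '' Icc 0 1) := by
  have hc : IsCompact (γ '' Icc 0 1) := isCompact_Icc.image_of_continuousOn hγ
  have hm : ∀ k, MeasurableSet (γ '' Icc 0 1 ∩ ann k) := fun k => hc.measurableSet.inter (ann_meas k)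
  calc (K : ENNReal) = ∑ k ∈ Finset.range K, (1 : ENNReal) := by simp
    _ ≤ ∑ k ∈ Finset.range K, Measure.hausdorffMeasure 1 (γ '' Icc 0 1 ∩ ann k) :=
        Finset.sum_le_sum (fun k hk => by
          have hk' := Finset.mem_range.mp hk
          exact ann_length hγ h0 h1 (ha k (by omega)) (ha (k + 1) (by omega)))
    _ = Measure.hausdorffMeasure 1 (⋃ k ∈ Finset.range K, γ '' Icc 0 1 ∩ ann k) := by
        rw [measure_biUnion_finset _ (fun k _ => hm k)]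
        intro k _ l _ hkl
        exact (ann_disj hkl).mono inter_subset_right inter_subset_right
    _ ≤ _ := measure_mono (iUnion₂_subset fun k _ => inter_subset_left)

end Q77.Esc
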