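import Pool.Agent.Q77.Esc.Wall

open Complex Filter Topology Set Metric Polynomial

namespace Q77.Esc

/-- the reciprocal polynomial `z^m conj(p(1/conj z))` -/
noncomputable def star (p : ℂ[X]) : ℂ[X] := (p.map (starRingEnd ℂ)).reverse

theorem natDegree_map_conj (p : ℂ[X]) : (p.map (starRingEnd ℂ)).natDegree = p.natDegree :=
  natDegree_map _

theorem star_eval (p : ℂ[X]) {z : ℂ} (hz : z ≠ 0) :
    (star p).eval z = z ^ p.natDegree * (starRingEnd ℂ) (p.eval (((starRingEnd ℂ) z)⁻¹)) := by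
  have hz' : z⁻¹ ≠ 0 := inv_ne_zero hz
  let _ := invertibleOfNonzero hz'
  have h := eval₂_reverse_mul_pow (RingHom.id ℂ) (z⁻¹) (p.map (starRingEnd ℂ))
  rw [invOf_eq_inv, inv_inv, eval₂_id, eval₂_id, natDegree_map_conj, eval_map] at h
  have h2 : z⁻¹ = (starRingEnd ℂ) (((starRingEnd ℂ) z)⁻¹) := by
    rw [map_inv₀, Complex.conj_conj]
  have h3 : (star p).eval z = z ^ p.natDegree * eval₂ (starRingEnd ℂ) (z⁻¹) p := by
    rw [← h, star]
    rw [inv_pow]
    field_simp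
  rw [h3]
  conv_lhs => rw [h2]
  rw [eval₂_at_apply]

theorem trail {p : ℂ[X]} (h0 : p.eval 0 = 1) :
    (p.map (starRingEnd ℂ)).natTrailingDegree = 0 := by
  rw [natTrailingDegree_eq_zero]
  right
  rw [coeff_map, coeff_zero_eq_eval_zero, h0]
  simp

theorem star_monic {p : ℂ[X]} (h0 : p.eval 0 = 1) : (star p).Monic := by
  rw [Monic, star, reverse_leadingCoeff, trailingCoeff, trail h0, coeff_map,
    coeff_zero_eq_eval_zero, h0]
  simp

theorem star_natDegree {p : ℂ[X]} (h0 : p.eval 0 = 1) : (star p).natDegree = p.natDegree := by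
  rw [star, reverse_natDegree, trail h0, natDegree_map_conj, Nat.sub_zero]

theorem norm_star_le {p : ℂ[X]} (hp : ∀ z : ℂ, ‖z‖ ≤ 1 → p.eval z ≠ 0) {z : ℂ} (hz : ‖z‖ ≤ 1) :
    ‖(star p).eval z‖ ≤ ‖p.eval z‖ := by
  have hd : DiffContOnCl ℂ (fun z => (star p).eval z / p.eval z) (ball 0 1) := by
    have h1 : DifferentiableOn ℂ (fun z => (star p).eval z / p.eval z) (closure (ball 0 1)) := by
      intro w hw
      rw [closure_ball _ one_ne_zero, mem_closedBall_zero_iff] at hw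
      exact ((star p).differentiable w |>.div (p.differentiable w) (hp w hw)).differentiableWithinAt
    exact h1.diffContOnCl
  have h2 := Complex.norm_le_of_forall_mem_frontier_norm_le (U := ball (0 : ℂ) 1) isBounded_ball hd
    (C := 1) (fun w hw => by
      rw [frontier_ball _ one_ne_zero, mem_sphere_zero_iff_norm] at hw
      have hw0 : w ≠ 0 := by
        intro h; rw [h, norm_zero] at hw; exact zero_ne_one hw
      have hinv : ((starRingEnd ℂ) w)⁻¹ = w := by
        rw [inv_eq_one_div, div_eq_iff (by simpa using hw0), Complex.mul_conj,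
          normSq_eq_norm_sq, hw]
        simp
      rw [norm_div, star_eval p hw0, hinv, norm_mul, norm_pow, hw, one_pow, one_mul, norm_conj]
      exact div_self_le_one _) (z := z) (by
      rw [closure_ball _ one_ne_zero, mem_closedBall_zero_iff]; exact hz)
  simp only [norm_div] at h2
  have hpos : 0 < ‖p.eval z‖ := norm_pos_iff.mpr (hp z hz)
  rwa [div_le_one hpos] at h2

/-- outside the disc the reciprocal polynomial dominates -/
theorem norm_le_star {p : ℂ[X]} (hp : ∀ z : ℂ, ‖z‖ ≤ 1 → p.eval z ≠ 0) {z : ℂ} (hz : 1 < ‖z‖) :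
    ‖p.eval z‖ ≤ ‖(star p).eval z‖ ∧ 0 < ‖(star p).eval z‖ := by
  have hz0 : z ≠ 0 := by
    intro h; rw [h, norm_zero] at hz; linarith
  set w : ℂ := ((starRingEnd ℂ) z)⁻¹ with hw
  have hwn : ‖w‖ ≤ 1 := by
    rw [hw, norm_inv, norm_conj]
    exact inv_le_one_of_one_le₀ hz.le
  have hw0 : w ≠ 0 := inv_ne_zero (by simpa using hz0)
  have h1 : ‖(star p).eval z‖ = ‖z‖ ^ p.natDegree * ‖p.eval w‖ := by
    rw [star_eval p hz0, norm_mul, norm_pow, norm_conj]
  have h2 := norm_star_le hp hwn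
  have hww : ((starRingEnd ℂ) w)⁻¹ = z := by
    rw [hw, map_inv₀, Complex.conj_conj, inv_inv]
  have h3 : ‖(star p).eval w‖ = ‖w‖ ^ p.natDegree * ‖p.eval z‖ := by
    rw [star_eval p hw0, hww, norm_mul, norm_pow, norm_conj]
  have hwz : ‖z‖ * ‖w‖ = 1 := by
    rw [hw, norm_inv, norm_conj]
    exact mul_inv_cancel₀ (by linarith)
  have h4 : ‖p.eval z‖ = ‖z‖ ^ p.natDegree * ‖(star p).eval w‖ := by
    rw [h3, ← mul_assoc, ← mul_pow, hwz, one_pow, one_mul]
  constructor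
  · rw [h1, h4]
    exact mul_le_mul_of_nonneg_left h2 (by positivity)
  · rw [h1]
    have : 0 < ‖p.eval w‖ := norm_pos_iff.mpr (hp w hwn)
    positivity

/-- the admissible polynomial `p + z^N p*` -/
noncomputable def ff (p : ℂ[X]) (N : ℕ) : ℂ[X] := p + X ^ N * star p

theorem ff_natDegree {p : ℂ[X]} (h0 : p.eval 0 = 1) {N : ℕ} (hN : 1 ≤ N) :
    (ff p N).natDegree = N + p.natDegree ∧ (ff p N).Monic := by
  have hm : (X ^ N * star p).Monic := (monic_X_pow N).mul (star_monic h0)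
  have hd : (X ^ N * star p).natDegree = N + p.natDegree := by
    rw [(monic_X_pow N).natDegree_mul (star_monic h0), natDegree_X_pow, star_natDegree h0]
  have hlt : p.natDegree < (X ^ N * star p).natDegree := by rw [hd]; omega
  have hlt' : p.degree < (X ^ N * star p).degree := degree_lt_degree hlt
  constructor
  · rw [ff, natDegree_add_eq_right_of_natDegree_lt hlt, hd]
  · exact hm.add_of_right hlt'

theorem ff_root {p : ℂ[X]} (hp : ∀ z : ℂ, ‖z‖ ≤ 1 → p.eval z ≠ 0) {N : ℕ} (hN : 1 ≤ N) {z : ℂ}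
    (hz : (ff p N).eval z = 0) : ‖z‖ ≤ 1 := by
  by_contra hcon
  push Not at hcon
  obtain ⟨h1, h2⟩ := norm_le_star hp hcon
  rw [ff, eval_add, eval_mul, eval_pow, eval_X] at hz
  have h3 : ‖p.eval z‖ = ‖z‖ ^ N * ‖(star p).eval z‖ := by
    rw [← norm_pow, ← norm_mul, ← norm_neg (z ^ N * _)]
    congr 1
    linear_combination hz
  have h4 : 1 < ‖z‖ ^ N := one_lt_pow₀ hcon (by omega)
  have : ‖(star p).eval z‖ < ‖z‖ ^ N * ‖(star p).eval z‖ := by
    nlinarith
  linarith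

/-- on a smaller disc, `|p + z^N p*| > 1` where `|p| ≥ 1 + η`, once `N` is large -/
theorem ff_large {p : ℂ[X]} (hp : ∀ z : ℂ, ‖z‖ ≤ 1 → p.eval z ≠ 0) {η r : ℝ} (hη : 0 < η)
    (hr : 0 ≤ r) (hr1 : r < 1) : ∃ N₀ : ℕ, ∀ N ≥ N₀, ∀ z : ℂ, ‖z‖ ≤ r → 1 + η ≤ ‖p.eval z‖ →
      1 < ‖(ff p N).eval z‖ := by
  have hlim : Tendsto (fun N : ℕ => (1 - r ^ N) * (1 + η)) atTop (𝓝 ((1 - 0) * (1 + η))) :=
    ((tendsto_pow_atTop_nhds_zero_of_lt_one hr hr1).const_sub 1).mul_const _
  have hev := hlim.eventually (lt_mem_nhds (show (1 : ℝ) < (1 - 0) * (1 + η) by linarith))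
  obtain ⟨N₀, hN₀⟩ := eventually_atTop.mp hev
  refine ⟨N₀, fun N hN z hz hpz => ?_⟩
  have h1 := hN₀ N hN
  have h2 := norm_star_le hp (hz.trans hr1.le)
  have h3 : ‖z ^ N * (star p).eval z‖ ≤ r ^ N * ‖p.eval z‖ := by
    rw [norm_mul, norm_pow]
    exact mul_le_mul (pow_le_pow_left₀ (norm_nonneg _) hz N) h2 (norm_nonneg _) (by positivity)
  have h4 : ‖p.eval z‖ - ‖z ^ N * (star p).eval z‖ ≤ ‖(ff p N).eval z‖ := by
    rw [ff, eval_add, eval_mul, eval_pow, eval_X]
    exact norm_sub_le_norm_add _ _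
  have h5 : 0 ≤ 1 - r ^ N := by
    have := pow_le_one₀ (n := N) hr hr1.le
    linarith
  nlinarith

end Q77.Esc
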