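import Pool.Agent.Helper240.ZFM.R3

open Complex Filter Topology Set Metric Polynomial

namespace Q77.Esc

/-- radii -/
noncomputable def rad (k : ℕ) : ℝ := 1 - 1 / ((k : ℝ) + 2)

theorem rad_lt_one (k : ℕ) : rad k < 1 := by
  have : 0 < 1 / ((k : ℝ) + 2) := by positivity
  unfold rad; linarith

theorem rad_ge_half (k : ℕ) : 1 / 2 ≤ rad k := by
  have : 1 / ((k : ℝ) + 2) ≤ 1 / 2 :=
    one_div_le_one_div_of_le (by norm_num) (by linarith [(Nat.cast_nonneg k : (0:ℝ) ≤ k)])
  unfold rad; linarith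

theorem rad_lt_succ (k : ℕ) : rad k < rad (k + 1) := by
  unfold rad
  have : 1 / (((k + 1 : ℕ) : ℝ) + 2) < 1 / ((k : ℝ) + 2) := by
    apply one_div_lt_one_div_of_lt (by positivity)
    push_cast; linarith
  linarith

theorem rad_strictMono : StrictMono rad := strictMono_nat_of_lt_succ rad_lt_succ

/-- the arc with a gap -/
def arc (k : ℕ) : Set ℂ := {z | ‖z‖ = rad (k + 1) ∧ (-1) ^ k * z.re ≤ rad k}

theorem isConnected_ann {a : ℝ} {s : Set ℝ} (ha : ∀ x ∈ s, a < x) (hs : IsConnected s) (h0 : 0 ≤ a) :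
    IsConnected {z : ℂ | ‖z‖ ∈ s} := by
  have h1 : {z : ℂ | ‖z‖ ∈ s} = (fun p : ℝ × ℝ => (p.1 : ℂ) * Complex.exp (p.2 * I)) ''
      (s ×ˢ (univ : Set ℝ)) := by
    ext z
    constructor
    · intro hz
      exact ⟨(‖z‖, arg z), ⟨hz, mem_univ _⟩, norm_mul_exp_arg_mul_I z⟩
    · rintro ⟨⟨r, t⟩, ⟨hr, -⟩, rfl⟩
      have hrp : 0 < r := lt_of_le_of_lt h0 (ha r hr)
      simp only [mem_ofPred_eq, norm_mul, norm_exp_ofReal_mul_I, mul_one, norm_real,
        Real.norm_eq_abs, abs_of_pos hrp]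
      exact hr
  rw [h1]
  refine (hs.prod isConnected_univ).image _ ?_
  fun_prop

/-- the complement of the disc of radius `r` together with an arc with a gap -/
theorem isConnected_compl {r R σ : ℝ} (hr : 0 < r) (hrR : r < R) (hσ : σ = 1 ∨ σ = -1) :
    IsConnected (closedBall (0 : ℂ) r ∪ {z : ℂ | ‖z‖ = R ∧ σ * z.re ≤ r})ᶜ := by
  have hs1 : IsConnected {z : ℂ | ‖z‖ ∈ Ioo r R} :=
    isConnected_ann (a := r) (fun x hx => hx.1) (isConnected_Ioo hrR) hr.le
  have hs2 : IsConnected {z : ℂ | ‖z‖ ∈ Ioi R} :=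
    isConnected_ann (a := R) (fun x hx => hx) isConnected_Ioi (hr.trans hrR).le
  have hH : IsConnected {z : ℂ | r < σ * z.re} := by
    have hconv : Convex ℝ {z : ℂ | r < σ * z.re} := by
      have hlin : IsLinearMap ℝ (fun z : ℂ => σ * z.re) :=
        ⟨fun x y => by simp [mul_add], fun c x => by simp; ring⟩
      exact convex_halfSpace_gt hlin r
    refine hconv.isConnected ⟨((σ * (r + 1) : ℝ) : ℂ), ?_⟩
    simp only [mem_ofPred_eq, ofReal_re]
    rcases hσ with rfl | rfl <;> linarith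
  have hσσ : σ * σ = 1 := by rcases hσ with rfl | rfl <;> norm_num
  have hnσ : |σ| = 1 := by rcases hσ with rfl | rfl <;> norm_num
  have e : (closedBall (0 : ℂ) r ∪ {z : ℂ | ‖z‖ = R ∧ σ * z.re ≤ r})ᶜ
      = ({z : ℂ | ‖z‖ ∈ Ioo r R} ∪ {z : ℂ | r < σ * z.re}) ∪ {z : ℂ | ‖z‖ ∈ Ioi R} := by
    ext z
    simp only [mem_compl_iff, mem_union, mem_closedBall_zero_iff, mem_ofPred_eq, mem_Ioo, mem_Ioi,
      not_or, not_and, not_le]
    have hre : σ * z.re ≤ ‖z‖ := by
      calc σ * z.re ≤ |σ * z.re| := le_abs_self _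
        _ = |z.re| := by rw [abs_mul, hnσ, one_mul]
        _ ≤ ‖z‖ := abs_re_le_norm z
    constructor
    · rintro ⟨h1, h2⟩
      rcases lt_trichotomy ‖z‖ R with h | h | h
      · exact Or.inl (Or.inl ⟨h1, h⟩)
      · exact Or.inl (Or.inr (h2 h))
      · exact Or.inr h
    · rintro ((⟨h1, h2⟩ | h) | h)
      · exact ⟨h1, fun h3 => absurd h3 h2.ne⟩
      · exact ⟨lt_of_lt_of_le h hre, fun _ => h⟩
      · exact ⟨hrR.trans h, fun h3 => absurd h3 h.ne'⟩
  rw [e]
  have hpt : ∀ x : ℝ, 0 < x → ‖((σ * x : ℝ) : ℂ)‖ = x := by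
    intro x hx
    rw [norm_real, Real.norm_eq_abs, abs_mul, hnσ, one_mul, abs_of_pos hx]
  have hpt2 : ∀ x : ℝ, σ * ((σ * x : ℝ) : ℂ).re = x := by
    intro x
    rw [ofReal_re, ← mul_assoc, hσσ, one_mul]
  refine (hs1.union ?_ hH).union ?_ hs2
  · refine ⟨((σ * ((r + R) / 2) : ℝ) : ℂ), ?_, ?_⟩
    · simp only [mem_ofPred_eq, mem_Ioo]
      rw [hpt _ (by linarith)]
      constructor <;> linarith
    · simp only [mem_ofPred_eq]
      rw [hpt2]; linarith
  · refine ⟨((σ * (R + 1) : ℝ) : ℂ), ?_, ?_⟩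
    · right
      simp only [mem_ofPred_eq]
      rw [hpt2]; linarith
    · simp only [mem_ofPred_eq, mem_Ioi]
      rw [hpt _ (by linarith)]
      linarith

/-- one step: a polynomial small on the disc and close to a given constant on the arc -/
theorem step {r R σ : ℝ} (hr : 0 < r) (hrR : r < R) (hσ : σ = 1 ∨ σ = -1) (M : ℝ) :
    ∃ q : ℂ[X], q.eval 0 = 0 ∧ (∀ z : ℂ, ‖z‖ ≤ r → ‖q.eval z‖ ≤ 1 / 2) ∧
      ∀ z : ℂ, ‖z‖ = R → σ * z.re ≤ r → M ≤ (q.eval z).re := by
  set K : Set ℂ := closedBall (0 : ℂ) r ∪ {z : ℂ | ‖z‖ = R ∧ σ * z.re ≤ r} with hK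
  have hKc : IsCompact K := by
    refine (isCompact_closedBall 0 r).union ?_
    have h1 : {z : ℂ | ‖z‖ = R ∧ σ * z.re ≤ r} = sphere (0 : ℂ) R ∩ {z : ℂ | σ * z.re ≤ r} := by
      ext z; simp
    rw [h1]
    refine (isCompact_sphere 0 R).inter_right ?_
    exact isClosed_le (continuous_const.mul continuous_re) continuous_const
  set a := (r + R) / 2 with ha
  set U : Set ℂ := {z : ℂ | ‖z‖ < a} ∪ {z : ℂ | a < ‖z‖} with hU
  have hUo : IsOpen U := (isOpen_lt continuous_norm continuous_const).union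
    (isOpen_lt continuous_const continuous_norm)
  have hKU : K ⊆ U := by
    rintro z (hz | hz)
    · left
      simp only [mem_closedBall_zero_iff] at hz
      simp only [mem_ofPred_eq]; linarith
    · right
      simp only [mem_ofPred_eq]; rw [hz.1]; linarith
  set h : ℂ → ℂ := fun z => if ‖z‖ < a then 0 else ((M + 1 / 2 : ℝ) : ℂ) with hh
  have hhd : DifferentiableOn ℂ h U := by
    rintro z (hz | hz)
    · have : h =ᶠ[𝓝 z] fun _ => 0 := by
        filter_upwards [(isOpen_lt continuous_norm continuous_const).mem_nhds hz] with w hw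
        rw [hh]; exact if_pos hw
      exact ((differentiableAt_const _).congr_of_eventuallyEq this).differentiableWithinAt
    · have : h =ᶠ[𝓝 z] fun _ => ((M + 1 / 2 : ℝ) : ℂ) := by
        filter_upwards [(isOpen_lt continuous_const continuous_norm).mem_nhds hz] with w hw
        rw [hh]; exact if_neg (not_lt.mpr (le_of_lt hw))
      exact ((differentiableAt_const _).congr_of_eventuallyEq this).differentiableWithinAt
  obtain ⟨q, hq⟩ := ZFM.runge hKc (isConnected_compl hr hrR hσ) hUo hKU h hhd (1 / 4) (by norm_num)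
  have h0K : (0 : ℂ) ∈ K := Or.inl (by simp [hr.le])
  have hq0 : ‖q.eval 0‖ < 1 / 4 := by
    have := hq 0 h0K
    have e0 : h 0 = 0 := by
      rw [hh]; exact if_pos (by simp only [norm_zero]; linarith)
    rw [e0, zero_sub, norm_neg] at this
    exact this
  refine ⟨q - C (q.eval 0), by simp, ?_, ?_⟩
  · intro z hz
    have := hq z (Or.inl (by simpa using hz))
    have e0 : h z = 0 := by
      rw [hh]; exact if_pos (by linarith)
    rw [e0, zero_sub, norm_neg] at this
    rw [eval_sub, eval_C]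
    calc ‖q.eval z - q.eval 0‖ ≤ ‖q.eval z‖ + ‖q.eval 0‖ := norm_sub_le _ _
      _ ≤ 1 / 2 := by linarith
  · intro z hz hz2
    have := hq z (Or.inr ⟨hz, hz2⟩)
    have e0 : h z = ((M + 1 / 2 : ℝ) : ℂ) := by
      rw [hh]; exact if_neg (by rw [hz, not_lt]; linarith)
    rw [e0] at this
    rw [eval_sub, eval_C, sub_re]
    have h1 := (abs_le.mp ((abs_re_le_norm _).trans this.le)).2
    have h2 := (abs_le.mp ((abs_re_le_norm _).trans hq0.le)).2
    rw [sub_re, ofReal_re] at h1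
    linarith

/-- the polynomial with large real part on the first `K` arcs -/
theorem exists_poly (K : ℕ) : ∃ g : ℂ[X], g.eval 0 = 0 ∧
    ∀ k < K, ∀ z ∈ arc k, 1 ≤ (g.eval z).re := by
  induction K with
  | zero => exact ⟨0, by simp, fun k hk => absurd hk (Nat.not_lt_zero k)⟩
  | succ K ih =>
    obtain ⟨g, hg0, hg⟩ := ih
    -- bound of `g` on the unit disc
    obtain ⟨B, hB⟩ : ∃ B : ℝ, ∀ z ∈ closedBall (0 : ℂ) 1, ‖g.eval z‖ ≤ B :=
      (isCompact_closedBall (0 : ℂ) 1).exists_bound_of_continuousOn g.continuous.continuousOn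
    have hr : 0 < rad K := lt_of_lt_of_le (by norm_num) (rad_ge_half K)
    have hσ : ((-1 : ℝ) ^ K = 1 ∨ (-1 : ℝ) ^ K = -1) := neg_one_pow_eq_or ℝ K
    obtain ⟨q, hq0, hq1, hq2⟩ := step hr (rad_lt_succ K) hσ (B + 1)
    refine ⟨C 2 * (g + q), by simp [hg0, hq0], ?_⟩
    intro k hk z hz
    have e : ((C 2 * (g + q)).eval z).re = 2 * ((g.eval z).re + (q.eval z).re) := by
      rw [eval_mul, eval_C, eval_add]
      simp
    rw [e]
    rcases Nat.lt_succ_iff_lt_or_eq.mp hk with h | h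
    · have h1 := hg k h z hz
      have hzr : ‖z‖ ≤ rad K := by
        rw [hz.1]
        exact rad_strictMono.monotone h
      have h2 := (abs_le.mp ((abs_re_le_norm _).trans (hq1 z hzr))).1
      linarith
    · subst h
      have h2 := hq2 z hz.1 hz.2
      have h1 := (abs_le.mp ((abs_re_le_norm _).trans (hB z (by
        rw [mem_closedBall_zero_iff, hz.1]; exact (rad_lt_one _).le)))).1
      linarith

end Q77.Esc
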